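import Mathlib
import Pool.Agent.H77.Q.Defs
import Pool.Agent.H6.P4.Side
import Pool.Agent.H81.Q.Own
import Pool.Agent.H62.Ind.P3
import Pool.Agent.H26.P3.End

set_option autoImplicit false

/-!
A rooted code with sides is the code of a tree (MP_a46c6f_co, full Q1, row (B)).
-/

namespace Pool.Agent.H38.Q

open Pool.Agent.H98.Code Pool.Agent.H17.TR Pool.Agent.H6.P4
open Pool.Agent.H77.Q (Irr RSides)
open Pool.Agent.H17.P3 (Pairs IsP4 Bad P4Split)
open Pool.Agent.H81.Q (Half CP CQ)

variable {X : Type} [Fintype X] [DecidableEq X]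
  {B : Submodule (ZMod 2) (X → K)} {e : X} {H M : X → X → ZMod 2}
  {S : (X → K) → Finset X → Prop}

theorem exists_irr : ∀ (n : ℕ) (k : X → K), k ∈ B →
    (Finset.univ.filter (fun w => k w ≠ 0)).card = n → ∀ v, k v ≠ 0 →
    ∃ d ∈ B, Irr B d ∧ (∀ w, d w = 0 ∨ d w = k w) ∧ d v ≠ 0 := by
  intro n
  induction n using Nat.strong_induction_on with
  | _ n ih =>
    intro k hk hn v hv
    by_cases hI : Irr B k
    · exact ⟨k, hk, hI, fun w => Or.inr rfl, hv⟩
    · unfold Pool.Agent.H77.Q.Irr at hI
      push Not at hI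
      obtain ⟨d, hd, hdk, hd0, hdk'⟩ := hI
      have step : ∀ d' : X → K, d' ∈ B → (∀ w, d' w = 0 ∨ d' w = k w) → (∃ w, d' w = 0 ∧ k w ≠ 0) →
          d' v ≠ 0 → ∃ d ∈ B, Irr B d ∧ (∀ w, d w = 0 ∨ d w = k w) ∧ d v ≠ 0 := by
        intro d' h1 h2 ⟨w, hw1, hw2⟩ h3
        have hlt : (Finset.univ.filter (fun w => d' w ≠ 0)).card < n := by
          rw [← hn]
          apply Finset.card_lt_card
          rw [Finset.ssubset_iff_of_subset]
          · refine ⟨w, by simp [hw2], by simp [hw1]⟩
          · intro x hx
            rw [Finset.mem_filter] at hx ⊢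
            refine ⟨hx.1, ?_⟩
            rcases h2 x with h4 | h4
            · exact absurd h4 hx.2
            · rw [← h4]; exact hx.2
        obtain ⟨d2, g1, g2, g3, g4⟩ := ih _ hlt d' h1 rfl v h3
        refine ⟨d2, g1, g2, ?_, g4⟩
        intro x
        rcases g3 x with h4 | h4
        · exact Or.inl h4
        · rw [h4]; exact h2 x
      by_cases hdv : d v = 0
      · refine step (k + d) (B.add_mem hk hd) ?_ ?_ ?_
        · intro w
          rcases hdk w with h | h
          · right; rw [Pi.add_apply, h, add_zero]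
          · left; rw [Pi.add_apply, h, Pool.Agent.H98.Code.k_add_self]
        · have : ∃ w, d w ≠ 0 := by
            by_contra hc
            push Not at hc
            exact hd0 (funext hc)
          obtain ⟨w, hw⟩ := this
          refine ⟨w, ?_, ?_⟩
          · rcases hdk w with h | h
            · exact absurd h hw
            · rw [Pi.add_apply, h, Pool.Agent.H98.Code.k_add_self]
          · rcases hdk w with h | h
            · exact absurd h hw
            · rw [← h]; exact hw
        · rw [Pi.add_apply, hdv, add_zero]; exact hv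
      · refine step d hd hdk ?_ hdv
        have : ∃ w, d w ≠ k w := by
          by_contra hc
          push Not at hc
          exact hdk' (funext hc)
        obtain ⟨w, hw⟩ := this
        rcases hdk w with h | h
        · exact ⟨w, h, fun h0 => hw (h.trans h0.symm)⟩
        · exact absurd h hw

/-- a word whose Laplacian vanishes does not split -/
theorem no_split (hH : IsMat B H) {f : X → ZMod 2} (hall : ∀ v, Lap H f v = 0) (g : X)
    (hs : Splits B (wd H f) g) : False := by
  obtain ⟨c₁, hc₁, c₂, hc₂, hsum, hg1, hg2, hd⟩ := hs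
  have e1 := eq_wd hH hc₁
  have e2 := eq_wd hH hc₂
  set f₁ : X → ZMod 2 := fun v => (c₁ v).1 with hf₁
  set f₂ : X → ZMod 2 := fun v => (c₂ v).1 with hf₂
  have hff : f₁ + f₂ = f := by
    funext v
    exact congrArg Prod.fst (congrFun hsum v)
  have h1 := sum_lap hH.sym f₁
  rw [Fintype.sum_eq_single g] at h1
  · rw [e1] at hg1
    rw [(lap_of_z hg1).2] at h1
    exact one_ne_zero h1
  · intro v hv
    rcases hd v hv with h2 | h2
    · rw [e1] at h2
      exact (lap_of_zero h2).2
    · rw [e2] at h2
      have h3 := lap_add H f₁ f₂ v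
      rw [hff, hall, (lap_of_zero h2).2, add_zero] at h3
      exact h3.symm

theorem wd_eq {f g : X → ZMod 2} {v : X} (h : f v = g v) (h' : Lap H f v = Lap H g v) :
    wd H f v = wd H g v := by
  rw [lap_eq, lap_eq, h] at h'
  exact Prod.ext h (add_left_cancel h')

theorem lap_const (c : ZMod 2) (v : X) : Lap H (fun _ => c) v = 0 := by
  unfold Lap
  refine Finset.sum_eq_zero fun w _ => ?_
  rw [CharTwo.add_self_eq_zero, mul_zero]

theorem z2c : ∀ c : ZMod 2, c = 0 ∨ c = 1 := by decide

/-- the full word -/
def om (H : X → X → ZMod 2) : X → K := wd H (fun _ => 1)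

theorem om_ne (v : X) : om H v ≠ 0 := fun h => by
  have := congrArg Prod.fst h
  exact absurd (show (1 : ZMod 2) = 0 from this) (by decide)

theorem om_nez (v : X) : om H v ≠ z := fun h => by
  have := congrArg Prod.fst h
  exact absurd (show (1 : ZMod 2) = 0 from this) (by decide)

theorem below_om {f : X → ZMod 2} {v : X} (h : Lap H f v = 0) :
    wd H f v = 0 ∨ wd H f v = om H v := by
  rcases z2c (f v) with h1 | h1
  · exact Or.inl (zero_of_lap h1 h)
  · exact Or.inr (wd_eq h1 (by rw [h, lap_const]))

theorem lap_of_om (hH : IsMat B H) {d : X → K} (hd : d ∈ B) {v : X}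
    (h : d v = 0 ∨ d v = om H v) : Lap H (fun v => (d v).1) v = 0 := by
  have e1 := eq_wd hH hd
  rcases h with h | h
  · rw [e1] at h
    exact (lap_of_zero h).2
  · rw [e1] at h
    have h1 := lap_wd H (fun v => (d v).1) v
    rw [h] at h1
    have h2 := lap_wd H (fun _ => (1 : ZMod 2)) v
    rw [lap_const] at h2
    rw [h1]
    exact h2.symm

/-- the kernel is zero -/
theorem ker' (hH : IsMat B H) (hR : RSides B e S) (f : X → ZMod 2) (he : f e = 0)
    (h : ∀ v, v ≠ e → Lap H f v = 0) : f = 0 := by
  have hle : Lap H f e = 0 := by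
    have h1 := sum_lap hH.sym f
    rw [Fintype.sum_eq_single e h] at h1
    exact h1
  have hall : ∀ v, Lap H f v = 0 := by
    intro v
    by_cases hv : v = e
    · rw [hv, hle]
    · exact h v hv
  have homB : om H ∈ B := wd_mem hH _
  have nosp : ∀ d ∈ B, (∀ v, d v = 0 ∨ d v = om H v) → ¬ ∃ g, Splits B d g := by
    rintro d hd hdo ⟨g, hg⟩
    rw [eq_wd hH hd] at hg
    exact no_split hH (fun v => lap_of_om hH hd (hdo v)) g hg
  have hzf : ∀ d : X → K, (∀ v, d v = 0 ∨ d v = om H v) → ZFree d := by
    intro d hd v hv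
    rcases hd v with h1 | h1
    · rw [hv] at h1
      exact absurd h1 (by decide)
    · exact om_nez v (h1.symm.trans hv)
  have main : ∀ (n : ℕ) (u : X → K) (Y : Finset X), Y.card = n → S u Y → Irr B u → u e = 0 →
      (∀ v, u v = 0 ∨ u v = om H v) → Y.Nonempty → False := by
    intro n
    induction n using Nat.strong_induction_on with
    | _ n ih =>
      intro u Y hn hS hI hue huo hY
      obtain ⟨k', hk', e1, e2, e3⟩ := hR.part u Y hS (om H) homB (by
        intro v hv
        rcases huo v with h1 | h1
        · exact absurd h1 hv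
        · exact Or.inr h1.symm)
      have hk'o : ∀ v, k' v = 0 ∨ k' v = om H v := by
        intro v
        by_cases hvY : v ∈ Y
        · exact Or.inr (e1 v hvY)
        · by_cases hv0 : u v = 0
          · exact Or.inl (e2 v hv0 hvY)
          · rcases e3 v hv0 with h1 | h1
            · exact Or.inl h1
            · rcases huo v with h2 | h2
              · exact absurd h2 hv0
              · exact Or.inr (h1.trans h2)
      obtain ⟨y, hy⟩ := hY
      have hky : k' y ≠ 0 := by
        rw [e1 y hy]; exact om_ne y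
      obtain ⟨d, hdB, hdI, hdk, hdy⟩ := exists_irr _ k' hk' rfl y hky
      have hdo : ∀ v, d v = 0 ∨ d v = om H v := by
        intro v
        rcases hdk v with h1 | h1
        · exact Or.inl h1
        · rw [h1]; exact hk'o v
      have hde : d e = 0 := by
        rcases hdk e with h1 | h1
        · exact h1
        · rw [h1]
          exact e2 e hue (hR.root u Y hS)
      have hd0 : d ≠ 0 := by
        rintro rfl
        exact hdy rfl
      rcases hR.mono u Y hS hI d hdB (hzf d hdo) hd0 hdI (by
        intro v hv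
        rcases hdk v with h1 | h1
        · exact Or.inl h1
        · rw [h1]; exact e3 v hv) (by
        intro v hv hvY
        rcases hdk v with h1 | h1
        · exact h1
        · rw [h1]; exact e2 v hv hvY) with h1 | ⟨Y', hYY, hYn, hS'⟩
      · exact nosp d hdB hdo h1
      · have hyY' : y ∉ Y' := fun h0 => hdy (hR.zero d Y' hS' y h0)
        have hlt : Y'.card < n := by
          rw [← hn]
          apply Finset.card_lt_card
          rw [Finset.ssubset_iff_of_subset hYY]
          exact ⟨y, hy, hyY'⟩
        exact ih _ hlt d Y' rfl hS' hdI hde hdo hYn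
  by_contra hf
  have : ∃ v, f v ≠ 0 := by
    by_contra hc
    push Not at hc
    exact hf (funext hc)
  obtain ⟨v, hv⟩ := this
  have huv : wd H f v ≠ 0 := fun h0 => hv (congrArg Prod.fst h0)
  obtain ⟨d, hdB, hdI, hdk, hdv⟩ := exists_irr _ (wd H f) (wd_mem hH f) rfl v huv
  have hdo : ∀ v, d v = 0 ∨ d v = om H v := by
    intro v
    rcases hdk v with h1 | h1
    · exact Or.inl h1
    · rw [h1]; exact below_om (hall v)
  have hde : d e = 0 := by
    rcases hdk e with h1 | h1
    · exact h1
    · rw [h1]; exact zero_of_lap he hle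
  have hd0 : d ≠ 0 := by
    rintro rfl
    exact hdv rfl
  rcases hR.ex d hdB (hzf d hdo) hde hd0 hdI with h1 | ⟨Y, hY, hS⟩
  · exact nosp d hdB hdo h1
  · exact main _ d Y rfl hS hdI hde hdo hY

/-- the inverse of the reduced Laplacian -/
theorem exists_inv' (hH : IsMat B H)
    (hk : ∀ f : X → ZMod 2, f e = 0 → (∀ v, v ≠ e → Lap H f v = 0) → f = 0) :
    ∃ M : X → X → ZMod 2, (∀ x, M x e = 0) ∧
      ∀ x v, Lap H (M x) v = (if v = x then 1 else 0) + (if v = e then 1 else 0) := by
  set R : (X → ZMod 2) →+ (X → ZMod 2) :=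
    { toFun := fun f v => if v = e then f e else Lap H f v
      map_zero' := by
        funext v
        by_cases hv : v = e
        · simp [hv]
        · simp [hv, Lap]
      map_add' := by
        intro f g
        funext v
        by_cases hv : v = e
        · simp [hv]
        · simp [hv, lap_add] } with hR
  have hval : ∀ f v, R f v = if v = e then f e else Lap H f v := fun f v => rfl
  have hinj : Function.Injective R := by
    rw [injective_iff_map_eq_zero]
    intro f hf
    apply hk f
    · have h1 := congrFun hf e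
      rw [hval, if_pos rfl] at h1
      exact h1
    · intro v hv
      have h1 := congrFun hf v
      rw [hval, if_neg hv] at h1
      exact h1
  have hsur : Function.Surjective R := Finite.injective_iff_surjective.1 hinj
  choose M hM using fun x : X => hsur (fun v => if v = e then 0 else if v = x then 1 else 0)
  have h0 : ∀ x, M x e = 0 := by
    intro x
    have h1 := congrFun (hM x) e
    rw [hval, if_pos rfl, if_pos rfl] at h1
    exact h1
  have h1 : ∀ x v, v ≠ e → Lap H (M x) v = if v = x then 1 else 0 := by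
    intro x v hv
    have h2 := congrFun (hM x) v
    rw [hval, if_neg hv, if_neg hv] at h2
    exact h2
  refine ⟨M, h0, fun x v => ?_⟩
  by_cases hv : v = e
  · subst hv
    have h2 := sum_lap hH.sym (M x)
    rw [Fintype.sum_eq_add_sum_subtype_ne _ v] at h2
    have h3 : ∑ i : {w // w ≠ v}, Lap H (M x) i.1 = ∑ i : {w // w ≠ v}, if i.1 = x then 1 else 0 :=
      Finset.sum_congr rfl fun i _ => h1 x i.1 i.2
    have h4 : ∑ w, (if w = x then (1 : ZMod 2) else 0) = 1 := by
      rw [Finset.sum_ite_eq' Finset.univ x, if_pos (Finset.mem_univ x)]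
    rw [Fintype.sum_eq_add_sum_subtype_ne _ v, ← h3] at h4
    rw [if_pos rfl]
    revert h2 h4
    generalize Lap H (M x) v = A
    generalize (∑ i : {w // w ≠ v}, Lap H (M x) i.1) = B
    generalize (if v = x then (1 : ZMod 2) else 0) = C
    revert A B C
    decide
  · rw [h1 x v hv, if_neg hv, add_zero]

/-- the sum of the rows of a family -/
def sm (M : X → X → ZMod 2) {n : ℕ} (p : Fin n → X) : X → ZMod 2 := fun y => ∑ i, M (p i) y

/-- closed families without closed subfamilies -/
structure Fam (M : X → X → ZMod 2) (e : X) {n : ℕ} (p : Fin n → X) : Prop where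
  even : ((n : ℕ) : ZMod 2) = 0
  pos : 0 < n
  inj : Function.Injective p
  ne : ∀ i, p i ≠ e
  cl : ∀ j, ∑ i, M (p i) (p j) = 1
  ker : ∀ α : Fin n → ZMod 2, ∑ i, α i = 0 → (∀ j, α j = ∑ i, α i * M (p i) (p j)) →
    (∀ i, α i = 0) ∨ ∀ i, α i = 1

section
variable (hH : IsMat B H) (h0 : ∀ x, M x e = 0)
  (hl : ∀ x v, Lap H (M x) v = (if v = x then 1 else 0) + (if v = e then 1 else 0))
include hl

theorem lap_sm {n : ℕ} {p : Fin n → X} (hF : Fam M e p) (v : X) :
    Lap H (sm M p) v = ∑ i, (if v = p i then 1 else 0) := by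
  have hsl : Lap H (sm M p) v = ∑ i, Lap H (M (p i)) v := by
    unfold Lap sm
    rw [Finset.sum_comm]
    refine Finset.sum_congr rfl fun w _ => ?_
    rw [← Finset.mul_sum, Finset.sum_add_distrib]
  rw [hsl]
  simp only [hl, Finset.sum_add_distrib]
  have h1 : ∑ _i : Fin n, (if v = e then (1 : ZMod 2) else 0) = 0 := by
    rw [Finset.sum_const, Finset.card_univ, Fintype.card_fin, nsmul_eq_mul, hF.even, zero_mul]
  rw [h1, add_zero]

theorem lap_sm_p {n : ℕ} {p : Fin n → X} (hF : Fam M e p) (j : Fin n) :
    Lap H (sm M p) (p j) = 1 := by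
  rw [lap_sm hl hF, Finset.sum_eq_single j]
  · rw [if_pos rfl]
  · intro i _ hi
    rw [if_neg]
    intro h
    exact hi (hF.inj h).symm
  · intro h
    exact absurd (Finset.mem_univ j) h

theorem lap_sm_0 {n : ℕ} {p : Fin n → X} (hF : Fam M e p) {v : X} (hv : ∀ j, v ≠ p j) :
    Lap H (sm M p) v = 0 := by
  rw [lap_sm hl hF]
  exact Finset.sum_eq_zero fun i _ => by rw [if_neg (hv i)]

omit hl in
theorem sum_off {n : ℕ} {p : Fin n → X} (hp : Function.Injective p) (F : X → ZMod 2)
    (hF : ∀ v, (∀ j, v ≠ p j) → F v = 0) : ∑ v, F v = ∑ i, F (p i) := by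
  have h1 : ∑ v ∈ Finset.univ.image p, F v = ∑ v, F v := by
    apply Finset.sum_subset (Finset.subset_univ _)
    intro v _ hv
    rw [Finset.mem_image] at hv
    apply hF v
    intro j hj
    exact hv ⟨j, Finset.mem_univ j, hj.symm⟩
  rw [← h1, Finset.sum_image]
  intro i _ j _ h
  exact hp h

omit hl in
theorem sum_off' {n : ℕ} {p : Fin n → X} (hp : Function.Injective p) {g : X}
    (hg : ∀ j, g ≠ p j) (F : X → ZMod 2)
    (hF : ∀ v, v ≠ g → (∀ j, v ≠ p j) → F v = 0) : ∑ v, F v = F g + ∑ i, F (p i) := by
  have h1 : ∑ v ∈ insert g (Finset.univ.image p), F v = ∑ v, F v := by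
    apply Finset.sum_subset (Finset.subset_univ _)
    intro v _ hv
    rw [Finset.mem_insert, not_or, Finset.mem_image] at hv
    apply hF v hv.1
    intro j hj
    exact hv.2 ⟨j, Finset.mem_univ j, hj.symm⟩
  rw [← h1, Finset.sum_insert, Finset.sum_image]
  · intro i _ j _ h
    exact hp h
  · rw [Finset.mem_image]
    rintro ⟨j, _, hj⟩
    exact hg j hj.symm

omit hl in
theorem sm_p {n : ℕ} {p : Fin n → X} (hF : Fam M e p) (j : Fin n) : sm M p (p j) = 1 := hF.cl j

include h0 in
omit hl in
theorem sm_e {n : ℕ} (p : Fin n → X) : sm M p e = 0 :=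
  Finset.sum_eq_zero fun i _ => h0 (p i)

include h0 in
theorem wd_e {n : ℕ} {p : Fin n → X} (hF : Fam M e p) : wd H (sm M p) e = 0 :=
  zero_of_lap (sm_e h0 p) (lap_sm_0 hl hF fun j h => hF.ne j h.symm)

theorem wd_zero {n : ℕ} {p : Fin n → X} (hF : Fam M e p) {v : X} (hv : sm M p v = 0) :
    wd H (sm M p) v = 0 := by
  apply zero_of_lap hv
  apply lap_sm_0 hl hF
  intro j hj
  have := sm_p hF j
  rw [← hj, hv] at this
  exact absurd this (by decide)

omit hl in
theorem wd_nz {f : X → ZMod 2} {v : X} (hv : wd H f v ≠ 0) (hz : f v = 0 → wd H f v = 0) :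
    f v = 1 := by
  rcases z2c (f v) with h | h
  · exact absurd (hz h) hv
  · exact h

theorem wd_zfree {n : ℕ} {p : Fin n → X} (hF : Fam M e p) : ZFree (wd H (sm M p)) := by
  intro v hv
  have h1 := lap_of_z hv
  rw [wd_zero hl hF h1.1] at hv
  exact absurd hv (by decide)

omit hl in
theorem wd_ne {n : ℕ} {p : Fin n → X} (hF : Fam M e p) : wd H (sm M p) ≠ 0 := by
  intro h
  have h1 := congrArg Prod.fst (congrFun h (p ⟨0, hF.pos⟩))
  have h2 : sm M p (p ⟨0, hF.pos⟩) = 0 := h1
  rw [sm_p hF] at h2
  exact absurd h2 (by decide)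

include hH h0

theorem wd_irr {n : ℕ} {p : Fin n → X} (hF : Fam M e p) : Irr B (wd H (sm M p)) := by
  intro d hd hdu
  have e1 := eq_wd hH hd
  set f : X → ZMod 2 := fun v => (d v).1 with hf
  have hde : d e = 0 := by
    rcases hdu e with h1 | h1
    · exact h1
    · rw [h1]; exact wd_e h0 hl hF
  have hfe : f e = 0 := congrArg Prod.fst hde
  have hlap : ∀ v, (f v = 0 ∧ Lap H f v = 0) ∨
      (f v = sm M p v ∧ Lap H f v = Lap H (sm M p) v) := by
    intro v
    rcases hdu v with h1 | h1
    · left
      rw [e1] at h1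
      exact lap_of_zero h1
    · right
      refine ⟨congrArg Prod.fst h1, ?_⟩
      rw [lap_wd, ← e1, h1, lap_wd]
  have hoff : ∀ v, (∀ j, v ≠ p j) → Lap H f v = 0 := by
    intro v hv
    rcases hlap v with h1 | h1
    · exact h1.2
    · rw [h1.2]; exact lap_sm_0 hl hF hv
  have hon : ∀ j, f (p j) = Lap H f (p j) := by
    intro j
    rcases hlap (p j) with h1 | h1
    · rw [h1.1, h1.2]
    · rw [h1.1, h1.2, lap_sm_p hl hF, sm_p hF]
  have hrec : ∀ y, f y = ∑ i, Lap H f (p i) * M (p i) y := by
    intro y
    rw [recon hH.sym h0 hl f hfe y]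
    refine sum_off hF.inj (fun v => Lap H f v * M v y) ?_
    intro v hv
    beta_reduce
    rw [hoff v hv, zero_mul]
  have hsum : ∑ i, Lap H f (p i) = 0 := by
    rw [← sum_off hF.inj (fun v => Lap H f v) hoff]
    exact sum_lap hH.sym f
  rcases hF.ker (fun i => Lap H f (p i)) hsum (fun j => by
    beta_reduce
    rw [← hon j]; exact hrec (p j)) with h1 | h1
  · left
    have h2 : f = 0 := by
      funext y
      rw [hrec y]
      exact Finset.sum_eq_zero fun i _ => by rw [h1 i, zero_mul]
    rw [e1, h2]
    funext v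
    refine Prod.ext rfl ?_
    show ∑ w, H v w * 0 = 0
    simp
  · right
    have h2 : f = sm M p := by
      funext y
      rw [hrec y]
      exact Finset.sum_congr rfl fun i _ => by rw [h1 i, one_mul]
    rw [e1, h2]

/-- the splitting of a closed family of points -/
theorem half_of_split {n : ℕ} {p : Fin n → X} (hF : Fam M e p) {g : X}
    (hs : Splits B (wd H (sm M p)) g) : Half M p ∅ g := by
  obtain ⟨c₁, hc₁, c₂, hc₂, hsum0, hg1, hg2, hd⟩ := hs
  have e1 := eq_wd hH hc₁
  have e2 := eq_wd hH hc₂
  set f₁ : X → ZMod 2 := fun v => (c₁ v).1 with hf₁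
  set f₂ : X → ZMod 2 := fun v => (c₂ v).1 with hf₂
  have hff : f₁ + f₂ = sm M p := by
    funext v
    exact congrArg Prod.fst (congrFun hsum0 v)
  rw [e1] at hg1 hd
  rw [e2] at hg2 hd
  have hsum : ∀ v, f₁ v + f₂ v = sm M p v := fun v => congrFun hff v
  have hlsum : ∀ v, Lap H f₁ v + Lap H f₂ v = Lap H (sm M p) v := by
    intro v
    rw [← hff, lap_add]
  have hgp : ∀ j, g ≠ p j := by
    intro j hj
    have h1 := hsum g
    rw [(lap_of_z hg1).1, (lap_of_z hg2).1, hj, sm_p hF] at h1
    exact absurd h1 (by decide)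
  have hout : ∀ v, v ≠ g → (∀ j, v ≠ p j) → Lap H f₁ v = 0 := by
    intro v hv hvp
    rcases hd v hv with h1 | h1
    · exact (lap_of_zero h1).2
    · have h2 := hlsum v
      rw [(lap_of_zero h1).2, lap_sm_0 hl hF hvp, add_zero] at h2
      exact h2
  have hfe : f₁ e = 0 := by
    by_cases hge : e = g
    · rw [hge]
      exact (lap_of_z hg1).1
    · rcases hd e hge with h1 | h1
      · exact (lap_of_zero h1).1
      · have h2 := hsum e
        rw [(lap_of_zero h1).1, sm_e h0 p, add_zero] at h2
        exact h2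
  have hf1 : ∀ y, f₁ y = M g y + ∑ i, Lap H f₁ (p i) * M (p i) y := by
    intro y
    rw [recon hH.sym h0 hl f₁ hfe y, sum_off' hF.inj hgp (fun v => Lap H f₁ v * M v y)]
    · beta_reduce
      rw [(lap_of_z hg1).2, one_mul]
    · intro v hv hvp
      beta_reduce
      rw [hout v hv hvp, zero_mul]
  refine ⟨fun i => Lap H f₁ (p i), ?_, ?_, ?_⟩
  · have h1 := sum_lap hH.sym f₁
    rw [sum_off' hF.inj hgp (fun v => Lap H f₁ v) hout] at h1
    beta_reduce at h1
    rw [(lap_of_z hg1).2] at h1
    revert h1
    generalize (∑ i, Lap H f₁ (p i)) = A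
    revert A
    decide
  · intro j
    have h1 := hf1 (p j)
    have h3 := hsum (p j)
    have h4 := hlsum (p j)
    rw [lap_sm_p hl hF] at h4
    rw [sm_p hF] at h3
    rcases hd (p j) (hgp j).symm with h5 | h5
    · rw [(lap_of_zero h5).1] at h1
      beta_reduce
      rw [(lap_of_zero h5).2, zero_add]
      exact (CharTwo.add_eq_zero.1 h1.symm)
    · rw [(lap_of_zero h5).1, add_zero] at h3
      rw [(lap_of_zero h5).2, add_zero] at h4
      rw [h3] at h1
      beta_reduce
      rw [h4]
      revert h1
      generalize (∑ i, Lap H f₁ (p i) * M (p i) (p j)) = A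
      generalize M g (p j) = B
      revert A B
      decide
  · intro y _ hy
    have h1 := hf1 y
    have h2 : f₁ y = 0 := by
      by_cases hyg : y = g
      · rw [hyg]
        exact (lap_of_z hg1).1
      · rcases hd y hyg with h3 | h3
        · exact (lap_of_zero h3).1
        · have h4 := hsum y
          have h5 : sm M p y = 0 := hy
          rw [(lap_of_zero h3).1, h5, add_zero] at h4
          exact h4
    rw [h2] at h1
    exact (CharTwo.add_eq_zero.1 h1.symm)

/-- own points are halves -/
theorem half_of_own (hR : RSides B e S) {n : ℕ} {p : Fin n → X} (hF : Fam M e p) {Y : Finset X}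
    (hS : S (wd H (sm M p)) Y) {y : X} (hy : y ∈ Y) (c : ZMod 2) (β : Fin n → ZMod 2)
    (hq : ∀ j, c + M y (p j) + ∑ i, β i * M (p i) (p j) = β j) : Half M p (↑Y) y := by
  have heY := hR.root _ _ hS
  have huy : wd H (sm M p) y = 0 := hR.zero _ _ hS y hy
  have hye : y ≠ e := fun h => heY (h ▸ hy)
  have hupj : ∀ j, wd H (sm M p) (p j) ≠ 0 := by
    intro j h
    have h1 : sm M p (p j) = 0 := congrArg Prod.fst h
    rw [sm_p hF] at h1
    exact absurd h1 (by decide)
  have hyp : ∀ j, y ≠ p j := fun j h => hupj j (h ▸ huy)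
  set fq : X → ZMod 2 := fun x => c + M y x + ∑ i, β i * M (p i) x with hfq
  have hlq : ∀ v, v ≠ e → Lap H fq v = (if v = y then 1 else 0) +
      ∑ i, β i * (if v = p i then 1 else 0) := by
    intro v hv
    have h1 : Lap H fq v = Lap H (fun _ => c) v + Lap H (M y) v +
        ∑ i, β i * Lap H (M (p i)) v := by
      unfold Lap
      have h2 : ∑ i, β i * ∑ w, H v w * (M (p i) v + M (p i) w) =
          ∑ w, H v w * (∑ i, β i * M (p i) v + ∑ i, β i * M (p i) w) := by
        simp only [Finset.mul_sum, ← Finset.sum_add_distrib]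
        rw [Finset.sum_comm]
        refine Finset.sum_congr rfl fun w _ => Finset.sum_congr rfl fun i _ => ?_
        ring
      rw [h2, ← Finset.sum_add_distrib, ← Finset.sum_add_distrib]
      refine Finset.sum_congr rfl fun w _ => ?_
      rw [hfq]
      beta_reduce
      ring
    rw [h1, lap_const, zero_add]
    simp only [hl, if_neg hv, add_zero]
  have hqv : ∀ v, wd H (sm M p) v ≠ 0 → wd H fq v = 0 ∨ wd H fq v = wd H (sm M p) v := by
    intro v hv
    have hve : v ≠ e := fun h => hv (h ▸ wd_e h0 hl hF)
    have hvy : v ≠ y := fun h => hv (h ▸ huy)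
    have hsv : sm M p v = 1 := wd_nz hv (wd_zero hl hF)
    have h1 := hlq v hve
    rw [if_neg hvy, zero_add] at h1
    by_cases hvp : ∃ j, v = p j
    · obtain ⟨j, rfl⟩ := hvp
      have h2 : Lap H fq (p j) = β j := by
        rw [h1, Finset.sum_eq_single j]
        · rw [if_pos rfl, mul_one]
        · intro i _ hi
          rw [if_neg (fun h => hi (hF.inj h).symm), mul_zero]
        · intro h
          exact absurd (Finset.mem_univ j) h
      have h3 : fq (p j) = β j := hq j
      rcases z2c (β j) with h4 | h4
      · left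
        rw [h4] at h2 h3
        exact zero_of_lap h3 h2
      · right
        rw [h4] at h2 h3
        exact wd_eq (by rw [h3, hsv]) (by rw [h2, lap_sm_p hl hF])
    · push Not at hvp
      have h2 : Lap H fq v = 0 := by
        rw [h1]
        exact Finset.sum_eq_zero fun i _ => by rw [if_neg (hvp i), mul_zero]
      rcases z2c (fq v) with h4 | h4
      · exact Or.inl (zero_of_lap h4 h2)
      · exact Or.inr (wd_eq (by rw [h4, hsv]) (by rw [h2, lap_sm_0 hl hF hvp]))
  obtain ⟨k, hk, k1, k2, k3⟩ := hR.part _ Y hS (wd H fq) (wd_mem hH fq) hqv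
  have e1 := eq_wd hH hk
  set f : X → ZMod 2 := fun v => (k v).1 with hf
  have hke : k e = 0 := k2 e (wd_e h0 hl hF) heY
  have hfe : f e = 0 := congrArg Prod.fst hke
  have lap0 : ∀ v, k v = 0 → Lap H f v = 0 := by
    intro v hv
    rw [e1] at hv
    exact (lap_of_zero hv).2
  have lapeq : ∀ v (g : X → ZMod 2), k v = wd H g v → Lap H f v = Lap H g v := by
    intro v g hv
    rw [lap_wd, ← e1, hv, lap_wd]
  have hout : ∀ v, v ≠ y → (∀ j, v ≠ p j) → Lap H f v = 0 := by
    intro v hvy hvp
    by_cases hvY : v ∈ Y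
    · have hve : v ≠ e := fun h => heY (h ▸ hvY)
      rw [lapeq v fq (k1 v hvY), hlq v hve, if_neg hvy, zero_add]
      exact Finset.sum_eq_zero fun i _ => by rw [if_neg (hvp i), mul_zero]
    · by_cases hv0 : wd H (sm M p) v = 0
      · exact lap0 v (k2 v hv0 hvY)
      · rcases k3 v hv0 with h1 | h1
        · exact lap0 v h1
        · rw [lapeq v _ h1]
          exact lap_sm_0 hl hF hvp
  have hly : Lap H f y = 1 := by
    rw [lapeq y fq (k1 y hy), hlq y hye, if_pos rfl]
    rw [Finset.sum_eq_zero fun i _ => by rw [if_neg (hyp i), mul_zero], add_zero]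
  have hon : ∀ j, f (p j) = Lap H f (p j) := by
    intro j
    rcases k3 (p j) (hupj j) with h1 | h1
    · rw [lap0 _ h1]
      exact congrArg Prod.fst h1
    · rw [lapeq _ _ h1, lap_sm_p hl hF]
      have h2 : f (p j) = sm M p (p j) := congrArg Prod.fst h1
      rw [h2, sm_p hF]
  have hrec : ∀ x, f x = M y x + ∑ i, Lap H f (p i) * M (p i) x := by
    intro x
    rw [recon hH.sym h0 hl f hfe x, sum_off' hF.inj hyp (fun v => Lap H f v * M v x)]
    · beta_reduce
      rw [hly, one_mul]
    · intro v hv hvp
      beta_reduce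
      rw [hout v hv hvp, zero_mul]
  refine ⟨fun i => Lap H f (p i), ?_, ?_, ?_⟩
  · have h1 := sum_lap hH.sym f
    rw [sum_off' hF.inj hyp (fun v => Lap H f v) hout] at h1
    beta_reduce at h1
    rw [hly] at h1
    revert h1
    generalize (∑ i, Lap H f (p i)) = A
    revert A
    decide
  · intro j
    have h1 := hrec (p j)
    rw [hon j] at h1
    beta_reduce
    revert h1
    generalize Lap H f (p j) = A
    generalize (∑ i, Lap H f (p i) * M (p i) (p j)) = C
    generalize M y (p j) = D
    revert A C D
    decide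
  · intro x hx hsx
    have hxY : x ∉ Y := fun h => hx (Finset.mem_coe.2 h)
    have hkx : k x = 0 := k2 x (wd_zero hl hF hsx) hxY
    have hfx : f x = 0 := congrArg Prod.fst hkx
    have h1 := hrec x
    rw [hfx] at h1
    exact (CharTwo.add_eq_zero.1 h1.symm)

/-- splitting or own points -/
theorem fam_ex (hR : RSides B e S) {n : ℕ} {p : Fin n → X} (hF : Fam M e p) :
    (∃ g, Half M p ∅ g) ∨ ∃ Y : Finset X, Y.Nonempty ∧ S (wd H (sm M p)) Y := by
  rcases hR.ex _ (wd_mem hH _) (wd_zfree hl hF) (wd_e h0 hl hF) (wd_ne hF)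
    (wd_irr hH h0 hl hF) with ⟨g, hg⟩ | h1
  · exact Or.inl ⟨g, half_of_split hH h0 hl hF hg⟩
  · exact Or.inr h1

/-- monotonicity -/
theorem fam_mono (hR : RSides B e S) {n m : ℕ} {p : Fin n → X} {q : Fin m → X} (hF : Fam M e p)
    (hG : Fam M e q) {Y : Finset X} (hS : S (wd H (sm M p)) Y)
    (h1 : ∀ j, (∀ i, p j ≠ q i) → sm M q (p j) = 0)
    (h2 : ∀ i, sm M p (q i) = 1 → ∃ j, q i = p j)
    (h3 : ∀ v, sm M p v = 0 → v ∉ Y → sm M q v = 0) :
    (∃ g, Half M q ∅ g) ∨ ∃ Y', Y' ⊆ Y ∧ Y'.Nonempty ∧ S (wd H (sm M q)) Y' := by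
  rcases hR.mono _ Y hS (wd_irr hH h0 hl hF) (wd H (sm M q)) (wd_mem hH _) (wd_zfree hl hG)
    (wd_ne hG) (wd_irr hH h0 hl hG) (by
      intro v hv
      have hsv : sm M p v = 1 := wd_nz hv (wd_zero hl hF)
      by_cases hvq : ∃ i, v = q i
      · obtain ⟨i, rfl⟩ := hvq
        obtain ⟨j, hj⟩ := h2 i hsv
        right
        refine wd_eq ?_ ?_
        · rw [sm_p hG, hsv]
        · rw [lap_sm_p hl hG, hj, lap_sm_p hl hF]
      · push Not at hvq
        by_cases hvp : ∃ j, v = p j
        · obtain ⟨j, rfl⟩ := hvp
          left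
          exact wd_zero hl hG (h1 j hvq)
        · push Not at hvp
          rcases z2c (sm M q v) with h4 | h4
          · exact Or.inl (wd_zero hl hG h4)
          · exact Or.inr (wd_eq (by rw [h4, hsv])
              (by rw [lap_sm_0 hl hG hvq, lap_sm_0 hl hF hvp]))) (by
      intro v hv hvY
      exact wd_zero hl hG (h3 v (congrArg Prod.fst hv) hvY)) with ⟨g, hg⟩ | ⟨Y', g1, g2, g3⟩
  · exact Or.inl ⟨g, half_of_split hH h0 hl hG hg⟩
  · exact Or.inr ⟨Y', g1, g2, g3⟩

end

theorem famCP (hs : ∀ x y, M x y = M y x) (h0 : ∀ x, M x e = 0) {a b : X} (h : CP M a b) :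
    Fam M e ![a, b] := by
  obtain ⟨huv, hne⟩ := h
  have he : ∀ x, M e x = 0 := fun x => by rw [hs, h0]
  have hae : a ≠ e := by
    rintro rfl
    exact hne (by rw [he, he])
  have hbe : b ≠ e := by
    rintro rfl
    apply hne
    rw [h0, huv, h0]
  have hab : a ≠ b := by
    rintro rfl
    exact hne rfl
  have hmab : M a b = M a a + 1 := (Pool.Agent.H81.Q.ne_iff' _ _).1 hne
  refine ⟨by decide, by norm_num, ?_, ?_, ?_, ?_⟩
  · intro i j hij
    fin_cases i <;> fin_cases j
    · rfl
    · exact absurd hij hab
    · exact absurd hij.symm hab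
    · rfl
  · intro i
    fin_cases i
    · exact hae
    · exact hbe
  · intro j
    rw [Fin.sum_univ_two]
    fin_cases j
    · change M a a + M b a = 1
      rw [hs b a, hmab]
      generalize M a a = B
      revert B
      decide
    · change M a b + M b b = 1
      rw [← huv, hmab]
      generalize M a a = B
      revert B
      decide
  · intro α hα _
    rw [Fin.sum_univ_two] at hα
    rcases z2c (α 0) with h1 | h1
    · left
      rw [h1, zero_add] at hα
      intro i
      fin_cases i
      · exact h1
      · exact hα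
    · right
      rw [h1] at hα
      intro i
      fin_cases i
      · exact h1
      · change α 1 = 1
        revert hα
        generalize α 1 = A
        revert A
        decide

theorem famCQ (hs : ∀ x y, M x y = M y x) (h0 : ∀ x, M x e = 0) {a b c d : X}
    (h : CQ M a b c d) : Fam M e ![a, b, c, d] := by
  obtain ⟨⟨hab, hbc, hcd, hac, had, hbd⟩, ha, hb, hcc, hd⟩ := h
  have he : ∀ x, M e x = 0 := fun x => by rw [hs, h0]
  have hba : M b a = 1 := by rw [hs, hab]
  have hcb : M c b = 1 := by rw [hs, hbc]
  have hdc : M d c = 1 := by rw [hs, hcd]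
  have hca : M c a = 0 := by rw [hs, hac]
  have hda : M d a = 0 := by rw [hs, had]
  have hdb : M d b = 0 := by rw [hs, hbd]
  have h01 : (0 : ZMod 2) ≠ 1 := by decide
  have nab : a ≠ b := by rintro rfl; exact h01 (ha.symm.trans hb)
  have nac : a ≠ c := by rintro rfl; exact h01 (ha.symm.trans hcc)
  have nad : a ≠ d := by rintro rfl; exact h01 (hdb.symm.trans hab)
  have nbc : b ≠ c := by rintro rfl; exact h01 (hbd.symm.trans hcd)
  have nbd : b ≠ d := by rintro rfl; exact h01 (hd.symm.trans hb)
  have ncd : c ≠ d := by rintro rfl; exact h01 (hd.symm.trans hcc)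
  refine ⟨by decide, by norm_num, ?_, ?_, ?_, ?_⟩
  · intro i j hij
    fin_cases i <;> fin_cases j <;> first
      | rfl
      | exact absurd hij nab
      | exact absurd hij nac
      | exact absurd hij nad
      | exact absurd hij nbc
      | exact absurd hij nbd
      | exact absurd hij ncd
      | exact absurd hij.symm nab
      | exact absurd hij.symm nac
      | exact absurd hij.symm nad
      | exact absurd hij.symm nbc
      | exact absurd hij.symm nbd
      | exact absurd hij.symm ncd
  · intro i
    fin_cases i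
    · change a ≠ e
      rintro rfl
      exact h01 ((he b).symm.trans hab)
    · change b ≠ e
      rintro rfl
      exact h01 ((he c).symm.trans hbc)
    · change c ≠ e
      rintro rfl
      exact h01 ((he d).symm.trans hcd)
    · change d ≠ e
      rintro rfl
      exact h01 ((he c).symm.trans hdc)
  · intro j
    rw [Fin.sum_univ_four]
    fin_cases j
    · change M a a + M b a + M c a + M d a = 1
      rw [ha, hba, hca, hda]
      decide
    · change M a b + M b b + M c b + M d b = 1
      rw [hab, hb, hcb, hdb]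
      decide
    · change M a c + M b c + M c c + M d c = 1
      rw [hac, hbc, hcc, hdc]
      decide
    · change M a d + M b d + M c d + M d d = 1
      rw [had, hbd, hcd, hd]
      decide
  · intro α _ hk
    have k0 : α 0 = α 0 * M a a + α 1 * M b a + α 2 * M c a + α 3 * M d a := by
      have := hk 0
      rw [Fin.sum_univ_four] at this
      exact this
    have k1 : α 1 = α 0 * M a b + α 1 * M b b + α 2 * M c b + α 3 * M d b := by
      have := hk 1
      rw [Fin.sum_univ_four] at this
      exact this
    have k2 : α 2 = α 0 * M a c + α 1 * M b c + α 2 * M c c + α 3 * M d c := by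
      have := hk 2
      rw [Fin.sum_univ_four] at this
      exact this
    have k3 : α 3 = α 0 * M a d + α 1 * M b d + α 2 * M c d + α 3 * M d d := by
      have := hk 3
      rw [Fin.sum_univ_four] at this
      exact this
    rw [ha, hba, hca, hda] at k0
    rw [hab, hb, hcb, hdb] at k1
    rw [hac, hbc, hcc, hdc] at k2
    rw [had, hbd, hcd, hd] at k3
    have key : (α 0 = 0 ∧ α 1 = 0 ∧ α 2 = 0 ∧ α 3 = 0) ∨
        (α 0 = 1 ∧ α 1 = 1 ∧ α 2 = 1 ∧ α 3 = 1) := by
      revert k0 k1 k2 k3
      generalize α 0 = A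
      generalize α 1 = B
      generalize α 2 = C
      generalize α 3 = D
      revert A B C D
      decide
    rcases key with ⟨g0, g1, g2, g3⟩ | ⟨g0, g1, g2, g3⟩
    · left
      intro i
      fin_cases i
      · exact g0
      · exact g1
      · exact g2
      · exact g3
    · right
      intro i
      fin_cases i
      · exact g0
      · exact g1
      · exact g2
      · exact g3

theorem sm2 (a b v : X) : sm M ![a, b] v = M a v + M b v := by
  unfold sm
  rw [Fin.sum_univ_two]
  rfl

theorem sm4 (a b c d v : X) : sm M ![a, b, c, d] v = M a v + M b v + M c v + M d v := by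
  unfold sm
  rw [Fin.sum_univ_four]
  rfl

/-- **row (B)** -/
theorem heart (hH : IsMat B H) (hR : RSides B e S) :
    ∃ M : X → X → ZMod 2, (∀ x y, M x y = M y x) ∧ (∀ x, M e x = 0) ∧
      (∀ u, u ≠ e → ∀ v, (∑ w, H u w * (M u v + M w v)) = if u = v then 1 else 0) ∧
      Pairs M ∧ P4Split M := by
  obtain ⟨M, h0, hl⟩ := exists_inv' hH (ker' hH hR)
  have hsym := m_sym hH.sym h0 hl
  have he : ∀ x, M e x = 0 := fun x => by rw [hsym, h0]
  have key : Pairs M ∧ P4Split M := by
    have own2 : ∀ a b Y, CP M a b → (∃ Y' : Finset X, Y = ↑Y' ∧ S (wd H (sm M ![a, b])) Y') →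
        ∀ y ∈ Y, Half M ![a, b] Y y := by
      rintro a b Y hab ⟨Y', rfl, hS⟩ y hy
      have hy' : y ∈ Y' := Finset.mem_coe.1 hy
      have hz := congrArg Prod.fst (hR.zero _ _ hS y hy')
      have hz' : sm M ![a, b] y = 0 := hz
      rw [sm2] at hz'
      have h3 : M y a = M y b := by
        rw [hsym y a, hsym y b]
        exact CharTwo.add_eq_zero.1 hz'
      refine half_of_own hH h0 hl hR (famCP hsym h0 hab) hS hy' (M y a) (fun _ => 0) ?_
      intro j
      rw [Finset.sum_eq_zero fun i _ => zero_mul _, add_zero]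
      fin_cases j
      · change M y a + M y a = 0
        exact CharTwo.add_self_eq_zero _
      · change M y a + M y b = 0
        rw [h3]
        exact CharTwo.add_self_eq_zero _
    refine Pool.Agent.H81.Q.own_rel hsym
      (fun a b Y => ∃ Y' : Finset X, Y = ↑Y' ∧ S (wd H (sm M ![a, b])) Y')
      (fun a b c d Y => ∃ Y' : Finset X, Y = ↑Y' ∧ S (wd H (sm M ![a, b, c, d])) Y')
      ?_ own2 ?_ ?_ ?_ ?_
    · intro a b hab
      rcases fam_ex hH h0 hl hR (famCP hsym h0 hab) with h1 | ⟨Y, hY, hS⟩
      · exact Or.inl h1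
      · exact Or.inr ⟨↑Y, hY, Y, rfl, hS⟩
    · intro a b c d hc
      rcases fam_ex hH h0 hl hR (famCQ hsym h0 hc) with h1 | ⟨Y, hY, hS⟩
      · exact Or.inl h1
      · exact Or.inr ⟨↑Y, hY, Y, rfl, hS⟩
    · rintro a b c d Y hc ⟨Y', rfl, hS⟩ y hy
      have hy' : y ∈ Y' := Finset.mem_coe.1 hy
      have hz := congrArg Prod.fst (hR.zero _ _ hS y hy')
      have hz' : sm M ![a, b, c, d] y = 0 := hz
      rw [sm4] at hz'
      rw [hsym a y, hsym b y, hsym c y, hsym d y] at hz'
      refine half_of_own hH h0 hl hR (famCQ hsym h0 hc) hS hy' 0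
        ![0, M y a, M y b, M y c + M y a] ?_
      obtain ⟨⟨hab, hbc, hcd, hac, had, hbd⟩, ha, hb, hcc, hd⟩ := hc
      have hba : M b a = 1 := by rw [hsym, hab]
      have hcb : M c b = 1 := by rw [hsym, hbc]
      have hdc : M d c = 1 := by rw [hsym, hcd]
      have hca : M c a = 0 := by rw [hsym, hac]
      have hda : M d a = 0 := by rw [hsym, had]
      have hdb : M d b = 0 := by rw [hsym, hbd]
      intro j
      rw [Fin.sum_univ_four]
      fin_cases j
      · change 0 + M y a + (0 * M a a + M y a * M b a + M y b * M c a +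
          (M y c + M y a) * M d a) = 0
        rw [ha, hba, hca, hda]
        revert hz'
        generalize M y a = A
        generalize M y b = B
        generalize M y c = C
        generalize M y d = D
        revert A B C D
        decide
      · change 0 + M y b + (0 * M a b + M y a * M b b + M y b * M c b +
          (M y c + M y a) * M d b) = M y a
        rw [hab, hb, hcb, hdb]
        revert hz'
        generalize M y a = A
        generalize M y b = B
        generalize M y c = C
        generalize M y d = D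
        revert A B C D
        decide
      · change 0 + M y c + (0 * M a c + M y a * M b c + M y b * M c c +
          (M y c + M y a) * M d c) = M y b
        rw [hac, hbc, hcc, hdc]
        revert hz'
        generalize M y a = A
        generalize M y b = B
        generalize M y c = C
        generalize M y d = D
        revert A B C D
        decide
      · change 0 + M y d + (0 * M a d + M y a * M b d + M y b * M c d +
          (M y c + M y a) * M d d) = M y c + M y a
        rw [had, hbd, hcd, hd]
        revert hz'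
        generalize M y a = A
        generalize M y b = B
        generalize M y c = C
        generalize M y d = D
        revert A B C D
        decide
    · rintro a b Y hab ⟨Y', rfl, hS⟩ x y hxy hx hy
      have hmab : M a b = M a a + 1 := (Pool.Agent.H81.Q.ne_iff' _ _).1 hab.2
      have ow : ∀ x ∈ Y', M x a = M a a + 1 ∧ M x b = M a a + 1 ∧
          ∀ v, v ∉ Y' → M a v = M b v → M x v = M a v := by
        intro x hx
        have h3 := Pool.Agent.H81.Q.half2 hsym hab
          (own2 a b _ hab ⟨Y', rfl, hS⟩ x (Finset.mem_coe.2 hx))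
        exact ⟨h3.1, h3.2.1, fun v hv => h3.2.2 v (fun h => hv (Finset.mem_coe.1 h))⟩
      have zr : ∀ x ∈ Y', sm M ![a, b] x = 0 := fun x hx =>
        congrArg Prod.fst (hR.zero _ _ hS x hx)
      have hx' : x ∈ Y' := Finset.mem_coe.1 hx
      obtain ⟨x1, x2, x3⟩ := ow x hx'
      have res : (∃ g, Half M ![x, y] ∅ g) ∨
          ∃ Y'', Y'' ⊆ Y' ∧ Y''.Nonempty ∧ S (wd H (sm M ![x, y])) Y'' := by
        rcases hy with hy | hy
        · have hy' : y ∈ Y' := Finset.mem_coe.1 hy
          obtain ⟨y1, y2, y3⟩ := ow y hy'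
          refine fam_mono hH h0 hl hR (famCP hsym h0 hab) (famCP hsym h0 hxy) hS ?_ ?_ ?_
          · intro j _
            rw [sm2]
            fin_cases j
            · change M x a + M y a = 0
              rw [x1, y1]; exact CharTwo.add_self_eq_zero _
            · change M x b + M y b = 0
              rw [x2, y2]; exact CharTwo.add_self_eq_zero _
          · intro i hi
            exfalso
            fin_cases i
            · have h3 : sm M ![a, b] x = 1 := hi
              rw [zr x hx'] at h3
              exact absurd h3 (by decide)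
            · have h3 : sm M ![a, b] y = 1 := hi
              rw [zr y hy'] at h3
              exact absurd h3 (by decide)
          · intro v hv hvY
            rw [sm2] at hv ⊢
            have h3 : M a v = M b v := CharTwo.add_eq_zero.1 hv
            rw [x3 v hvY h3, y3 v hvY h3]
            exact CharTwo.add_self_eq_zero _
        · subst hy
          refine fam_mono hH h0 hl hR (famCP hsym h0 hab) (famCP hsym h0 hxy) hS ?_ ?_ ?_
          · intro j hj
            rw [sm2]
            fin_cases j
            · exact absurd rfl (hj 1)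
            · change M x b + M y b = 0
              rw [x2, hmab]; exact CharTwo.add_self_eq_zero _
          · intro i hi
            fin_cases i
            · exfalso
              have h3 : sm M ![y, b] x = 1 := hi
              rw [zr x hx'] at h3
              exact absurd h3 (by decide)
            · exact ⟨0, rfl⟩
          · intro v hv hvY
            rw [sm2] at hv ⊢
            have h3 : M y v = M b v := CharTwo.add_eq_zero.1 hv
            rw [x3 v hvY h3]
            exact CharTwo.add_self_eq_zero _
      rcases res with h1 | ⟨Y'', g1, g2, g3⟩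
      · exact Or.inl h1
      · exact Or.inr ⟨↑Y'', Finset.coe_subset.2 g1, g2, Y'', rfl, g3⟩
    · rintro a b Y hab ⟨Y', rfl, hS⟩ p q r s hc hp hq hr hs'
      have ow : ∀ x ∈ (↑Y' : Set X), M x a = M a a + 1 ∧ M x b = M a a + 1 ∧
          ∀ v, v ∉ Y' → M a v = M b v → M x v = M a v := by
        intro x hx
        have h3 := Pool.Agent.H81.Q.half2 hsym hab (own2 a b _ hab ⟨Y', rfl, hS⟩ x hx)
        exact ⟨h3.1, h3.2.1, fun v hv => h3.2.2 v (fun h => hv (Finset.mem_coe.1 h))⟩
      have zr : ∀ x ∈ (↑Y' : Set X), sm M ![a, b] x = 0 := fun x hx =>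
        congrArg Prod.fst (hR.zero _ _ hS x (Finset.mem_coe.1 hx))
      obtain ⟨p1, p2, p3⟩ := ow p hp
      obtain ⟨q1, q2, q3⟩ := ow q hq
      obtain ⟨r1, r2, r3⟩ := ow r hr
      obtain ⟨s1, s2, s3⟩ := ow s hs'
      have four : ∀ A : ZMod 2, A + A + A + A = 0 := by decide
      rcases fam_mono hH h0 hl hR (famCP hsym h0 hab) (famCQ hsym h0 hc) hS (by
        intro j _
        rw [sm4]
        fin_cases j
        · change M p a + M q a + M r a + M s a = 0
          rw [p1, q1, r1, s1]; exact four _
        · change M p b + M q b + M r b + M s b = 0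
          rw [p2, q2, r2, s2]; exact four _) (by
        intro i hi
        exfalso
        fin_cases i
        · have h3 : sm M ![a, b] p = 1 := hi
          rw [zr p hp] at h3
          exact absurd h3 (by decide)
        · have h3 : sm M ![a, b] q = 1 := hi
          rw [zr q hq] at h3
          exact absurd h3 (by decide)
        · have h3 : sm M ![a, b] r = 1 := hi
          rw [zr r hr] at h3
          exact absurd h3 (by decide)
        · have h3 : sm M ![a, b] s = 1 := hi
          rw [zr s hs'] at h3
          exact absurd h3 (by decide)) (by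
        intro v hv hvY
        rw [sm2] at hv
        rw [sm4]
        have h3 : M a v = M b v := CharTwo.add_eq_zero.1 hv
        rw [p3 v hvY h3, q3 v hvY h3, r3 v hvY h3, s3 v hvY h3]
        exact four _) with h1 | ⟨Y'', g1, g2, g3⟩
      · exact Or.inl h1
      · exact Or.inr ⟨↑Y'', Finset.coe_subset.2 g1, g2, Y'', rfl, g3⟩
  refine ⟨M, hsym, he, ?_, key.1, key.2⟩
  intro u hu v
  have h1 := hl v u
  rw [if_neg hu, add_zero] at h1
  rw [← h1]
  unfold Lap
  refine Finset.sum_congr rfl fun w _ => ?_
  rw [hsym u v, hsym w v]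

/-- **a rooted code with sides is the code of a tree** -/
theorem tree (hB : IsCode B) (hz : NoZ B) (hR : RSides B e S) : (graph B).IsTree := by
  obtain ⟨H, hs, hm⟩ := exists_matrix hB hz
  have hH : IsMat B H := ⟨hs, hm⟩
  have hH' : Pool.Agent.H32.AA.IsMat B H := ⟨hs, hm⟩
  have heq : graph B = GrH H := by
    ext v w
    rw [Pool.Agent.H32.AA.adj_iff hH', hH.adj]
  rw [heq]
  obtain ⟨M, h1, h2, h3, hp, h4⟩ := heart hH hR
  exact Pool.Agent.H26.P3.tree_end X e H M hH.sym h1 h2 h3 hp
    (Pool.Agent.H62.Ind.p3 X M h1 hp h4)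

/-- the same with all arguments explicit -/
theorem heart_tree : ∀ (X : Type) [Fintype X] [DecidableEq X] (B : Submodule (ZMod 2) (X → K))
    (r : X) (S : (X → K) → Finset X → Prop), IsCode B → NoZ B → RSides B r S →
    (graph B).IsTree := fun _ _ _ _ _ _ hB hz hR => tree hB hz hR

end Pool.Agent.H38.Q
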