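import Mathlib
import Pool.Agent.H31.Q.Defs
import Pool.Agent.H77.Q.Defs
import Pool.Agent.H45.TR.Minor

set_option autoImplicit false

/-!
The sides of the words of the minors at the root (MP_a46c6f_co, full Q1, row (C)).
-/

namespace Pool.Agent.H38.Q

open Finset Pool.Agent.H98.Code Pool.Agent.H26.TR
open Pool.Agent.H45.TR
open Pool.Agent.H31.Q (Sides)
open Pool.Agent.H77.Q (Irr RSides)

variable {V : Type} [Fintype V] [DecidableEq V]
variable {L : Submodule (ZMod 2) (V → K)} {e : V} {D : V → K} {P : Finset (Finset V)}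
  {M0 : Finset V} {t : Finset V → V} {S : (V → K) → Finset V → Prop}

/-- a word of `L` which is a lift of a word of the minor with the letter `0` at the root -/
def Lift (L : Submodule (ZMod 2) (V → K)) (e : V) (D : V → K) (P : Finset (Finset V))
    (M0 : Finset V) (t : Finset V → V) (u : V → K) : Prop :=
  u ∈ L ∧ (u e).1 = 0 ∧ (∀ M ∈ P.erase M0, ∀ v ∈ M, u v = 0 ∨ u v = D v) ∧
    ∀ M ∈ P.erase M0, u (t M) = 0

/-- the sides of the minor -/
def RS (L : Submodule (ZMod 2) (V → K)) (e : V) (D : V → K) (P : Finset (Finset V))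
    (M0 : Finset V) (t : Finset V → V) (S : (V → K) → Finset V → Prop)
    (u : W (P.erase M0) → K) (Y : Finset (W (P.erase M0))) : Prop :=
  ∃ u' Y', S u' Y' ∧ Lift L e D P M0 t u' ∧ u' e = 0 ∧ Y' ⊆ M0 ∧ (u = fun w => u' w.1) ∧
    ∀ w, w ∈ Y ↔ w.1 ∈ Y'

theorem lift_add {u w : V → K} (hu : Lift L e D P M0 t u) (hw : Lift L e D P M0 t w) :
    Lift L e D P M0 t (u + w) := by
  refine ⟨L.add_mem hu.1 hw.1, ?_, ?_, ?_⟩
  · rw [Pi.add_apply, Prod.fst_add, hu.2.1, hw.2.1, add_zero]
  · intro M hM v hv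
    rw [Pi.add_apply]
    rcases hu.2.2.1 M hM v hv with h1 | h1 <;> rcases hw.2.2.1 M hM v hv with h2 | h2 <;>
      rw [h1, h2]
    · exact Or.inl (add_zero _)
    · exact Or.inr (zero_add _)
    · exact Or.inr (add_zero _)
    · exact Or.inl (Pool.Agent.H98.Code.k_add_self _)
  · intro M hM
    rw [Pi.add_apply, hu.2.2.2 M hM, hw.2.2.2 M hM, add_zero]

section
variable (hiso : ∀ u ∈ L, ∀ w ∈ L, form u w = 0) (hP : Parts L e D P) (hM0 : M0 ∈ P)
  (hl : ∀ v, v ≠ e → (D v).1 = 1) (ht : ∀ M ∈ P.erase M0, t M ∈ M)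
include hP hl

/-- lifts restrict to words of the minor -/
theorem lift_mem (ht : ∀ M ∈ P.erase M0, t M ∈ M) {u : V → K} (hu : Lift L e D P M0 t u) :
    (fun w : W (P.erase M0) => u w.1) ∈ N L D (P.erase M0) t := by
  refine ⟨u, hu.1, ?_, rfl⟩
  intro v hv
  obtain ⟨M, hM, hvM⟩ := (nmem_range_iff _ v).1 hv
  by_cases hvt : v = t M
  · rw [hvt, hu.2.2.2 M hM, Pool.Agent.H98.Code.kf_zero_left]
  · rw [sg_ne hP (Finset.erase_subset _ _) ht hM hvM hvt]
    rcases hu.2.2.1 M hM v hvM with h1 | h1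
    · rw [h1, Pool.Agent.H98.Code.kf_zero_left]
    · rw [h1, Pool.Agent.H98.Code.kf_self]

include hiso

/-- words of the minor with the letter `0` or `z` at the root have lifts -/
theorem exists_lift (ht : ∀ M ∈ P.erase M0, t M ∈ M) (heW : ∀ M ∈ P.erase M0, e ∉ M)
    {k : W (P.erase M0) → K} (hk : k ∈ N L D (P.erase M0) t)
    (hke : (k ⟨e, heW⟩).1 = 0) : ∃ u, Lift L e D P M0 t u ∧ k = fun w => u w.1 := by
  obtain ⟨u, hu, hus, rfl⟩ := hk
  refine ⟨u, ⟨hu, hke, ?_, ?_⟩, rfl⟩
  · intro M hM v hv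
    exact le_D hiso hP (Finset.erase_subset _ _) hl ht hu hke hus
      ((nmem_range_iff _ v).2 ⟨M, hM, hv⟩)
  · intro M hM
    exact eq_zero_h hiso hP (Finset.erase_subset _ _) hl ht hu hke hus hM

/-- a splitting of a lift gives a splitting in the minor -/
theorem split_down (ht : ∀ M ∈ P.erase M0, t M ∈ M) (heW : ∀ M ∈ P.erase M0, e ∉ M)
    {u : V → K} (hu : Lift L e D P M0 t u) (hue : u e = 0) (hs : ∃ g, Splits L u g) :
    ∃ g, Splits (N L D (P.erase M0) t) (fun w => u w.1) g := by
  classical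
  obtain ⟨g, c₁, hc₁, c₂, hc₂, hsum, hg1, hg2, hd⟩ := hs
  have hQ : P.erase M0 ⊆ P := Finset.erase_subset _ _
  have hus : ∀ v, v ∉ Set.range (Subtype.val : W (P.erase M0) → V) →
      kf (u v) (sg D (P.erase M0) t v) = 0 := by
    intro v hv
    obtain ⟨M, hM, hvM⟩ := (nmem_range_iff _ v).1 hv
    by_cases hvt : v = t M
    · rw [hvt, hu.2.2.2 M hM, Pool.Agent.H98.Code.kf_zero_left]
    · rw [sg_ne hP hQ ht hM hvM hvt]
      rcases hu.2.2.1 M hM v hvM with h1 | h1
      · rw [h1, Pool.Agent.H98.Code.kf_zero_left]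
      · rw [h1, Pool.Agent.H98.Code.kf_self]
  have hv1 : ∀ v, v ≠ g → c₁ v = 0 ∨ c₁ v = u v := by
    intro v hv
    rcases hd v hv with h1 | h1
    · exact Or.inl h1
    · right
      rw [← hsum, Pi.add_apply, h1, add_zero]
  have hv2 : ∀ v, v ≠ g → c₂ v = 0 ∨ c₂ v = u v := by
    intro v hv
    rcases hd v hv with h1 | h1
    · right
      rw [← hsum, Pi.add_apply, h1, zero_add]
    · exact Or.inl h1
  have hgW : g ∈ Set.range (Subtype.val : W (P.erase M0) → V) := by
    by_contra hgW
    obtain ⟨M, hM, hgM⟩ := (nmem_range_iff _ g).1 hgW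
    have hge : g ≠ e := fun h0 => heW M hM (h0 ▸ hgM)
    have key : ∀ c : V → K, c ∈ L → c g = z → (∀ v, v ≠ g → c v = 0 ∨ c v = u v) → False := by
      intro c hc hcg hcv
      have hce : c e = 0 := by
        rcases hcv e (Ne.symm hge) with h1 | h1
        · exact h1
        · rw [h1, hue]
      have h0 := hiso c hc _ (hP.word M (hQ hM))
      unfold form at h0
      rw [← Finset.add_sum_erase _ _ (Finset.mem_univ g)] at h0
      have hg3 : kf (c g) (pw D e M g) = 1 := by
        unfold pw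
        rw [if_neg hge, if_pos hgM, hcg, Pool.Agent.H98.Code.kf_z_left]
        exact hl g hge
      rw [hg3] at h0
      have hrest : ∑ x ∈ Finset.univ.erase g, kf (c x) (pw D e M x) = 0 := by
        apply Finset.sum_eq_zero
        intro x hx
        have hxg : x ≠ g := Finset.ne_of_mem_erase hx
        by_cases hxe : x = e
        · rw [hxe, hce, Pool.Agent.H98.Code.kf_zero_left]
        · unfold pw
          rw [if_neg hxe]
          by_cases hxM : x ∈ M
          · rw [if_pos hxM]
            rcases hcv x hxg with h1 | h1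
            · rw [h1, Pool.Agent.H98.Code.kf_zero_left]
            · rw [h1]
              rcases hu.2.2.1 M hM x hxM with h2 | h2
              · rw [h2, Pool.Agent.H98.Code.kf_zero_left]
              · rw [h2, Pool.Agent.H98.Code.kf_self]
          · rw [if_neg hxM, Pool.Agent.H98.Code.kf_zero_right]
      rw [hrest] at h0
      exact absurd h0 (by decide)
    exact key c₁ hc₁ hg1 hv1
  obtain ⟨g', rfl⟩ := hgW
  have hin : ∀ c : V → K, (∀ v, v ≠ (g' : V) → c v = 0 ∨ c v = u v) →
      ∀ v, v ∉ Set.range (Subtype.val : W (P.erase M0) → V) →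
        kf (c v) (sg D (P.erase M0) t v) = 0 := by
    intro c hc v hv
    have hne : v ≠ (g' : V) := by
      rintro rfl
      exact hv ⟨g', rfl⟩
    rcases hc v hne with h1 | h1
    · rw [h1, Pool.Agent.H98.Code.kf_zero_left]
    · rw [h1]; exact hus v hv
  refine ⟨g', fun w => c₁ w, ⟨c₁, hc₁, hin c₁ hv1, rfl⟩, fun w => c₂ w,
    ⟨c₂, hc₂, hin c₂ hv2, rfl⟩, ?_, hg1, hg2, ?_⟩
  · funext w
    exact congrFun hsum w
  · intro w hw
    exact hd w (fun h0 => hw (Subtype.ext h0))

omit hiso

/-- a lift which vanishes on `M0` and `e` is zero -/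
theorem lift_zero (ht : ∀ M ∈ P.erase M0, t M ∈ M) {u : V → K} (hu : Lift L e D P M0 t u)
    (hue : u e = 0) (h0 : ∀ v ∈ M0, u v = 0) : u = 0 := by
  have hKD : KD L D e u := by
    refine ⟨hu.1, ?_, Or.inl hue⟩
    intro v hv
    obtain ⟨M, hM, hvM⟩ := hP.cover v hv
    by_cases hMM : M = M0
    · exact Or.inl (h0 v (hMM ▸ hvM))
    · exact hu.2.2.1 M (Finset.mem_erase.2 ⟨hMM, hM⟩) v hvM
  funext v
  by_cases hv : v = e
  · rw [hv]; exact hue
  · obtain ⟨M, hM, hvM⟩ := hP.cover v hv
    by_cases hMM : M = M0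
    · exact h0 v (hMM ▸ hvM)
    · have hMQ : M ∈ P.erase M0 := Finset.mem_erase.2 ⟨hMM, hM⟩
      rcases hP.union u hKD M hM with h1 | h1
      · exact absurd (hu.2.2.2 M hMQ) (Pool.Agent.H26.TR.mem_sup.1 (h1 (ht M hMQ))).2
      · by_contra hne
        exact Finset.disjoint_left.1 h1 hvM (Pool.Agent.H26.TR.mem_sup.2 ⟨hv, hne⟩)

omit hP in
/-- a lift of a `z`-free word is `z`-free -/
theorem lift_zfree (hP : Parts L e D P) {u : V → K} (hu : Lift L e D P M0 t u)
    (hz : ZFree (fun w : W (P.erase M0) => u w.1)) : ZFree u := by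
  intro v hv
  by_cases hvW : ∀ M ∈ P.erase M0, v ∉ M
  · exact hz ⟨v, hvW⟩ hv
  · push Not at hvW
    obtain ⟨M, hM, hvM⟩ := hvW
    have hve : v ≠ e := fun h0 => hP.nmem M (Finset.mem_of_mem_erase hM) (h0 ▸ hvM)
    rcases hu.2.2.1 M hM v hvM with h1 | h1
    · rw [hv] at h1
      exact absurd h1 (by decide)
    · have h2 := hl v hve
      rw [← h1, hv] at h2
      exact absurd h2 (by decide)

end

/-- **the sides of the minor** -/
theorem rsides (hiso : ∀ u ∈ L, ∀ w ∈ L, form u w = 0) (hP : Parts L e D P) (hM0 : M0 ∈ P)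
    (hl : ∀ v, v ≠ e → (D v).1 = 1) (ht : ∀ M ∈ P.erase M0, t M ∈ M)
    (heW : ∀ M ∈ P.erase M0, e ∉ M) (hS : Sides L S) :
    RSides (N L D (P.erase M0) t) (⟨e, heW⟩ : W (P.erase M0)) (RS L e D P M0 t S) := by
  classical
  have hQ : P.erase M0 ⊆ P := Finset.erase_subset _ _
  have heM0 : e ∉ M0 := hP.nmem M0 hM0
  have inW : ∀ v, v ∈ M0 → ∀ M ∈ P.erase M0, v ∉ M := by
    intro v hv M hM hvM
    exact Finset.disjoint_left.1 (hP.disj M (hQ hM) M0 hM0 (Finset.ne_of_mem_erase hM)) hvM hv
  have ka : ∀ a : K, a + a = 0 := Pool.Agent.H98.Code.k_add_self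
  -- the preimage of a set
  have pre : ∀ Y' : Finset V, ∃ Y : Finset (W (P.erase M0)), ∀ w, w ∈ Y ↔ w.1 ∈ Y' :=
    fun Y' => ⟨Finset.univ.filter (fun w => w.1 ∈ Y'), fun w => by simp⟩
  -- the F-part of a word below a lift
  have below : ∀ u' Y', S u' Y' → Lift L e D P M0 t u' → u' e = 0 → Y' ⊆ M0 →
      ∀ k ∈ L, (∀ v, u' v ≠ 0 → k v = 0 ∨ k v = u' v) →
      ∃ k' ∈ L, (∀ v ∈ Y', k' v = k v) ∧ (∀ v, u' v = 0 → v ∉ Y' → k' v = 0) ∧
        (∀ v, u' v ≠ 0 → k' v = 0 ∨ k' v = u' v) ∧ Lift L e D P M0 t k' ∧ k' e = 0 ∧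
        (∃ Y1 ⊆ Y', S k' Y1) ∧ ∃ Y2 ⊆ Y', S (k' + u') Y2 := by
    intro u' Y' hSu hu hue hY k hk hku
    obtain ⟨k', hk', e1, e2, e3, e4, e5⟩ := hS.part u' Y' hSu k hk hku
    have heY : e ∉ Y' := fun h0 => heM0 (hY h0)
    have hk'e : k' e = 0 := e2 e hue heY
    refine ⟨k', hk', e1, e2, e3, ⟨hk', by rw [hk'e]; rfl, ?_, ?_⟩, hk'e, e4, e5⟩
    · intro M hM v hv
      have hvY : v ∉ Y' := fun h0 => inW v (hY h0) M hM hv
      by_cases h1 : u' v = 0
      · exact Or.inl (e2 v h1 hvY)
      · rcases e3 v h1 with h2 | h2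
        · exact Or.inl h2
        · rcases hu.2.2.1 M hM v hv with h3 | h3
          · exact absurd h3 h1
          · exact Or.inr (h2.trans h3)
    · intro M hM
      have hv := ht M hM
      have hvY : t M ∉ Y' := fun h0 => inW _ (hY h0) M hM hv
      exact e2 _ (hu.2.2.2 M hM) hvY
  refine ⟨?_, ?_, ?_, ?_, ?_⟩
  · -- root
    rintro u Y ⟨u', Y', hSu, hu, hue, hY, rfl, hYY⟩ h0
    exact heM0 (hY ((hYY _).1 h0))
  · -- zero
    rintro u Y ⟨u', Y', hSu, hu, hue, hY, rfl, hYY⟩ v hv
    exact (hS.mem u' Y' hSu).2 v.1 ((hYY v).1 hv)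
  · -- ex
    intro u huB huz hue hu0 hirr
    obtain ⟨u', hu', rfl⟩ := exists_lift hiso hP hl ht heW huB (by rw [hue]; rfl)
    have hu'e : u' e = 0 := hue
    have hu'z : ZFree u' := lift_zfree hl hP hu' huz
    have hu'0 : u' ≠ 0 := by
      rintro rfl
      exact hu0 rfl
    obtain ⟨Y', hY', heY⟩ : ∃ Y', S u' Y' ∧ e ∉ Y' := by
      obtain ⟨Y1, hY1⟩ := hS.ex u' hu'.1
      by_cases he : e ∈ Y1
      · obtain ⟨Y2, hY2, h2⟩ := hS.compl u' Y1 hY1
        exact ⟨Y2, hY2, fun h0 => ((h2 e).1 h0).2 he⟩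
      · exact ⟨Y1, hY1, he⟩
    by_cases hsp : ∃ g, Splits (N L D (P.erase M0) t) (fun w : W (P.erase M0) => u' w.1) g
    · exact Or.inl hsp
    right
    have hYM : Y' ⊆ M0 := by
      intro v hv
      have hve : v ≠ e := fun h0 => heY (h0 ▸ hv)
      obtain ⟨M, hM, hvM⟩ := hP.cover v hve
      by_cases hMM : M = M0
      · exact hMM ▸ hvM
      exfalso
      have hMQ : M ∈ P.erase M0 := Finset.mem_erase.2 ⟨hMM, hM⟩
      have hu'v : u' v = 0 := (hS.mem u' Y' hY').2 v hv
      -- the part
      have hp : ∀ w, u' w ≠ 0 → pw D e M w = 0 ∨ pw D e M w = u' w := by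
        intro w hw
        have hwe : w ≠ e := fun h0 => hw (by rw [h0]; exact hu'e)
        unfold pw
        rw [if_neg hwe]
        by_cases hwM : w ∈ M
        · rw [if_pos hwM]
          rcases hu'.2.2.1 M hMQ w hwM with h1 | h1
          · exact absurd h1 hw
          · exact Or.inr h1.symm
        · rw [if_neg hwM]; exact Or.inl rfl
      obtain ⟨k, hk, k1, k2, k3, -⟩ := hS.part u' Y' hY' _ (hP.word M hM) hp
      have hke : k e = 0 := k2 e hu'e heY
      have hpM : ∀ w ∈ M, pw D e M w = D w := by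
        intro w hw
        have hwe : w ≠ e := fun h0 => hP.nmem M hM (h0 ▸ hw)
        unfold pw
        rw [if_neg hwe, if_pos hw]
      have hpN : ∀ w, w ≠ e → w ∉ M → pw D e M w = 0 := by
        intro w hwe hw
        unfold pw
        rw [if_neg hwe, if_neg hw]
      have hkv : k v = D v := by rw [k1 v hv, hpM v hvM]
      have hDv : D v ≠ 0 := by
        intro h0
        have := hl v hve
        rw [h0] at this
        exact absurd this (by decide)
      have hkD : ∀ M' ∈ P.erase M0, ∀ w ∈ M', k w = 0 ∨ k w = D w := by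
        intro M' hM' w hw
        have hwe : w ≠ e := fun h0 => heW M' hM' (h0 ▸ hw)
        by_cases hwY : w ∈ Y'
        · rw [k1 w hwY]
          by_cases hwM : w ∈ M
          · exact Or.inr (hpM w hwM)
          · exact Or.inl (hpN w hwe hwM)
        · by_cases hw0 : u' w = 0
          · exact Or.inl (k2 w hw0 hwY)
          · rcases k3 w hw0 with h1 | h1
            · exact Or.inl h1
            · rcases hu'.2.2.1 M' hM' w hw with h2 | h2
              · exact absurd h2 hw0
              · exact Or.inr (h1.trans h2)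
      have hkt : ∀ M' ∈ P.erase M0, M' ≠ M → k (t M') = 0 := by
        intro M' hM' hne
        have hmem := ht M' hM'
        have hwe : t M' ≠ e := fun h0 => heW M' hM' (h0 ▸ hmem)
        have hnM : t M' ∉ M := fun h0 =>
          Finset.disjoint_left.1 (hP.disj M' (hQ hM') M hM hne) hmem h0
        by_cases hwY : t M' ∈ Y'
        · rw [k1 _ hwY]; exact hpN _ hwe hnM
        · exact k2 _ (hu'.2.2.2 M' hM') hwY
      have hkM0 : ∀ w ∈ M0, k w = 0 ∨ k w = u' w := by
        intro w hw
        have hwe : w ≠ e := fun h0 => heM0 (h0 ▸ hw)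
        have hnM : w ∉ M := inW w hw M hMQ
        by_cases hw0 : u' w = 0
        · left
          by_cases hwY : w ∈ Y'
          · rw [k1 _ hwY]; exact hpN _ hwe hnM
          · exact k2 _ hw0 hwY
        · exact k3 w hw0
      by_cases hkt0 : k (t M) = 0
      · have hkL : Lift L e D P M0 t k := by
          refine ⟨hk, by rw [hke]; rfl, hkD, ?_⟩
          intro M' hM'
          by_cases hne : M' = M
          · rw [hne]; exact hkt0
          · exact hkt M' hM' hne
        have hd : ∀ w : W (P.erase M0), (fun w : W (P.erase M0) => k w.1) w = 0 ∨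
            (fun w : W (P.erase M0) => k w.1) w = (fun w : W (P.erase M0) => u' w.1) w := by
          intro w
          by_cases hwe : w.1 = e
          · left
            show k w.1 = 0
            rw [hwe]; exact hke
          · obtain ⟨M', hM', hwM'⟩ := hP.cover w.1 hwe
            have hMM' : M' = M0 := by
              by_contra hne
              exact w.2 M' (Finset.mem_erase.2 ⟨hne, hM'⟩) hwM'
            exact hkM0 w.1 (hMM' ▸ hwM')
        rcases hirr _ (lift_mem hP hl ht hkL) hd with h1 | h1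
        · have h2 : k = 0 := by
            refine lift_zero hP hl ht hkL hke ?_
            intro w hw
            exact congrFun h1 ⟨w, inW w hw⟩
          rw [h2] at hkv
          exact hDv hkv.symm
        · have h2 : k + u' = 0 := by
            refine lift_zero hP hl ht (lift_add hkL hu') ?_ ?_
            · rw [Pi.add_apply, hke, hu'e, add_zero]
            · intro w hw
              have h3 : k w = u' w := congrFun h1 ⟨w, inW w hw⟩
              rw [Pi.add_apply, h3, ka]
          have h3 := congrFun h2 v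
          rw [Pi.add_apply, hkv, hu'v, add_zero] at h3
          exact hDv h3
      · apply hsp
        have hktD : k (t M) = D (t M) := by
          rcases hkD M hMQ _ (ht M hMQ) with h1 | h1
          · exact absurd h1 hkt0
          · exact h1
        have hpe : pw D e M e = z := by simp [pw]
        have hlift : ∀ k : V → K, k ∈ L → k e = 0 →
            (∀ M' ∈ P.erase M0, ∀ w ∈ M', k w = 0 ∨ k w = D w) →
            (∀ M' ∈ P.erase M0, M' ≠ M → k (t M') = 0) → k (t M) = D (t M) →
            Lift L e D P M0 t (k + pw D e M) := by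
          intro k hk hke hkD hkt hktD
          refine ⟨L.add_mem hk (hP.word M hM), ?_, ?_, ?_⟩
          · rw [Pi.add_apply, hke, zero_add, hpe]; rfl
          · intro M' hM' w hw
            have hwe : w ≠ e := fun h0 => heW M' hM' (h0 ▸ hw)
            rw [Pi.add_apply]
            by_cases hwM : w ∈ M
            · rw [hpM w hwM]
              rcases hkD M' hM' w hw with h1 | h1
              · rw [h1, zero_add]; exact Or.inr rfl
              · rw [h1, ka]; exact Or.inl rfl
            · rw [hpN w hwe hwM, add_zero]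
              exact hkD M' hM' w hw
          · intro M' hM'
            have hmem := ht M' hM'
            have hwe : t M' ≠ e := fun h0 => heW M' hM' (h0 ▸ hmem)
            rw [Pi.add_apply]
            by_cases hne : M' = M
            · rw [hne, hktD, hpM _ (ht M hMQ), ka]
            · have hnM : t M' ∉ M := fun h0 =>
                Finset.disjoint_left.1 (hP.disj M' (hQ hM') M hM hne) hmem h0
              rw [hkt M' hM' hne, hpN _ hwe hnM, add_zero]
        have l1 : Lift L e D P M0 t (k + pw D e M) := hlift k hk hke hkD hkt hktD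
        have l2 : Lift L e D P M0 t ((k + u') + pw D e M) := by
          refine hlift (k + u') (L.add_mem hk hu'.1) ?_ ?_ ?_ ?_
          · rw [Pi.add_apply, hke, hu'e, add_zero]
          · intro M' hM' w hw
            rw [Pi.add_apply]
            rcases hkD M' hM' w hw with h1 | h1 <;> rcases hu'.2.2.1 M' hM' w hw with h2 | h2 <;>
              rw [h1, h2]
            · exact Or.inl (add_zero _)
            · exact Or.inr (zero_add _)
            · exact Or.inr (add_zero _)
            · exact Or.inl (ka _)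
          · intro M' hM' hne
            rw [Pi.add_apply, hkt M' hM' hne, hu'.2.2.2 M' hM', add_zero]
          · rw [Pi.add_apply, hktD, hu'.2.2.2 M hMQ, add_zero]
        refine ⟨⟨e, heW⟩, _, lift_mem hP hl ht l1, _, lift_mem hP hl ht l2, ?_, ?_, ?_, ?_⟩
        · funext w
          show (k w.1 + pw D e M w.1) + ((k w.1 + u' w.1) + pw D e M w.1) = u' w.1
          generalize k w.1 = x1
          generalize pw D e M w.1 = x2
          generalize u' w.1 = x3
          revert x1 x2 x3
          decide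
        · show k e + pw D e M e = z
          rw [hke, hpe, zero_add]
        · show (k e + u' e) + pw D e M e = z
          rw [hke, hu'e, hpe, zero_add, zero_add]
        · intro w hw
          have hwe : w.1 ≠ e := fun h0 => hw (Subtype.ext h0)
          obtain ⟨M', hM', hwM'⟩ := hP.cover w.1 hwe
          have hMM' : M' = M0 := by
            by_contra hne
            exact w.2 M' (Finset.mem_erase.2 ⟨hne, hM'⟩) hwM'
          have hw0 : w.1 ∈ M0 := hMM' ▸ hwM'
          have hp0 : pw D e M w.1 = 0 := hpN _ hwe (inW _ hw0 M hMQ)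
          rcases hkM0 w.1 hw0 with h1 | h1
          · left
            show k w.1 + pw D e M w.1 = 0
            rw [h1, hp0, add_zero]
          · right
            show (k w.1 + u' w.1) + pw D e M w.1 = 0
            rw [h1, hp0, add_zero, ka]
    have hYne : Y'.Nonempty := by
      by_contra hne
      rw [Finset.not_nonempty_iff_eq_empty] at hne
      subst hne
      exact hsp (split_down hiso hP hl ht heW hu' hu'e (hS.wc u' hY' hu'z hu'0))
    obtain ⟨Y, hY⟩ := pre Y'
    obtain ⟨y, hy⟩ := hYne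
    exact ⟨Y, ⟨⟨y, inW y (hYM hy)⟩, (hY _).2 hy⟩, u', Y', hY', hu', hu'e, hYM, rfl, hY⟩
  · -- part
    rintro u Y ⟨u', Y', hSu, hu, hue, hY, rfl, hYY⟩ k ⟨k', hk', hks, rfl⟩ hku
    have hk2 : ∀ v, u' v ≠ 0 → k' v = 0 ∨ k' v = u' v := by
      intro v hv
      by_cases hvW : ∀ M ∈ P.erase M0, v ∉ M
      · exact hku ⟨v, hvW⟩ hv
      · push Not at hvW
        obtain ⟨M, hM, hvM⟩ := hvW
        have h1 := hks v ((nmem_range_iff _ v).2 ⟨M, hM, hvM⟩)
        have hvt : v ≠ t M := fun h0 => hv (by rw [h0]; exact hu.2.2.2 M hM)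
        have hve : v ≠ e := fun h0 => heW M hM (h0 ▸ hvM)
        rw [Pool.Agent.H98.Code.kf_eq_zero_iff _ _ (sg_ne_zero hl hve), sg_ne hP hQ ht hM hvM hvt]
          at h1
        rcases hu.2.2.1 M hM v hvM with h2 | h2
        · exact absurd h2 hv
        · rw [h2]; exact h1
    obtain ⟨k2, hk2L, e1, e2, e3, e4, e5, e6, e7⟩ := below u' Y' hSu hu hue hY k' hk' hk2
    refine ⟨fun w => k2 w.1, lift_mem hP hl ht e4, ?_, ?_, ?_⟩
    · intro v hv
      exact e1 v.1 ((hYY v).1 hv)
    · intro v hv hvY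
      exact e2 v.1 hv (fun h0 => hvY ((hYY v).2 h0))
    · intro v hv
      exact e3 v.1 hv
  · -- mono
    rintro u Y ⟨u', Y', hSu, hu, hue, hY, rfl, hYY⟩ hirr k hkB hkz hk0 hkirr hku hk0'
    have heY : e ∉ Y' := fun h0 => heM0 (hY h0)
    have hke : k ⟨e, heW⟩ = 0 := hk0' ⟨e, heW⟩ hue (fun h0 => heY ((hYY _).1 h0))
    obtain ⟨k', hk', rfl⟩ := exists_lift hiso hP hl ht heW hkB (by rw [hke]; rfl)
    have hk2 : ∀ v, u' v ≠ 0 → k' v = 0 ∨ k' v = u' v := by
      intro v hv
      by_cases hvW : ∀ M ∈ P.erase M0, v ∉ M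
      · exact hku ⟨v, hvW⟩ hv
      · push Not at hvW
        obtain ⟨M, hM, hvM⟩ := hvW
        rcases hu.2.2.1 M hM v hvM with h2 | h2
        · exact absurd h2 hv
        · rw [h2]; exact hk'.2.2.1 M hM v hvM
    obtain ⟨k2, hk2L, e1, e2, e3, e4, e5, ⟨Y1, hY1, hS1⟩, Y2, hY2, hS2⟩ :=
      below u' Y' hSu hu hue hY k' hk'.1 hk2
    -- the conclusion for a lift of `k` with a side inside `Y'`
    have fin : ∀ k3 Y3, S k3 Y3 → Lift L e D P M0 t k3 → k3 e = 0 → Y3 ⊆ Y' →
        (fun w : W (P.erase M0) => k' w.1) = (fun w : W (P.erase M0) => k3 w.1) →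
        (∃ g, Splits (N L D (P.erase M0) t) (fun w : W (P.erase M0) => k' w.1) g) ∨
        ∃ Y'', Y'' ⊆ Y ∧ Y''.Nonempty ∧
          RS L e D P M0 t S (fun w : W (P.erase M0) => k' w.1) Y'' := by
      intro k3 Y3 hS3 hk3 hk3e hY3 heq
      rw [heq] at hkz hk0 ⊢
      by_cases hne : Y3 = ∅
      · subst hne
        left
        exact split_down hiso hP hl ht heW hk3 hk3e
          (hS.wc k3 hS3 (lift_zfree hl hP hk3 hkz) (by rintro rfl; exact hk0 rfl))
      · right
        obtain ⟨Y4, hY4⟩ := pre Y3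
        obtain ⟨y, hy⟩ := Finset.nonempty_iff_ne_empty.2 hne
        have hyM : y ∈ M0 := hY (hY3 hy)
        exact ⟨Y4, fun w hw => (hYY w).2 (hY3 ((hY4 w).1 hw)),
          ⟨⟨y, inW y hyM⟩, (hY4 _).2 hy⟩, k3, Y3, hS3, hk3, hk3e, fun a ha => hY (hY3 ha), rfl, hY4⟩
    have hd : ∀ w : W (P.erase M0),
        (fun w : W (P.erase M0) => (k' + k2) w.1) w = 0 ∨
        (fun w : W (P.erase M0) => (k' + k2) w.1) w = (fun w : W (P.erase M0) => u' w.1) w := by
      intro w
      show k' w.1 + k2 w.1 = 0 ∨ k' w.1 + k2 w.1 = u' w.1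
      by_cases hw0 : u' w.1 = 0
      · left
        by_cases hwY : w ∈ Y
        · rw [e1 w.1 ((hYY w).1 hwY), ka]
        · have h1 : k' w.1 = 0 := hk0' w hw0 hwY
          rw [h1, e2 w.1 hw0 (fun h0 => hwY ((hYY w).2 h0)), add_zero]
      · rcases hk2 w.1 hw0 with h1 | h1 <;> rcases e3 w.1 hw0 with h2 | h2 <;> rw [h1, h2]
        · exact Or.inl (add_zero _)
        · exact Or.inr (zero_add _)
        · exact Or.inr (add_zero _)
        · exact Or.inl (ka _)
    rcases hirr _ (lift_mem hP hl ht (lift_add hk' e4)) hd with h1 | h1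
    · refine fin k2 Y1 hS1 e4 e5 hY1 ?_
      funext w
      have h2 : k' w.1 + k2 w.1 = 0 := congrFun h1 w
      show k' w.1 = k2 w.1
      revert h2
      generalize k' w.1 = x1
      generalize k2 w.1 = x2
      revert x1 x2
      decide
    · refine fin (k2 + u') Y2 hS2 (lift_add e4 hu) ?_ hY2 ?_
      · rw [Pi.add_apply, e5, hue, add_zero]
      · funext w
        have h2 : k' w.1 + k2 w.1 = u' w.1 := congrFun h1 w
        show k' w.1 = k2 w.1 + u' w.1
        revert h2
        generalize k' w.1 = x1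
        generalize k2 w.1 = x2
        generalize u' w.1 = x3
        revert x1 x2 x3
        decide

end Pool.Agent.H38.Q
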